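import Pool.Agent.W602.RG.Stm

set_option autoImplicit false

open FF MvPolynomial Pool.Agent.W603.LV Pool.Agent.W603.PV
open Pool.Agent.W602.RG

namespace Pool.Agent.W61.RG.GSP

theorem mk_sum {L ι : Type} [Field L] (s : Finset ι) (f : ι → ℕ → L) :
    Om.mk (fun m => ∑ i ∈ s, f i m) = ∑ i ∈ s, Om.mk (f i) := by
  classical
  induction s using Finset.induction_on with
  | empty => simp only [Finset.sum_empty]; exact Om.mk_zero
  | insert a s ha ih =>
    simp only [Finset.sum_insert ha]
    rw [← ih, Om.mk_add]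

theorem main : S_GSP := by
  classical
  intro k L _ _ _ V hV u hu
  let b := Module.finBasis k V
  let a : Fin (Module.finrank k V) → ℕ → k := fun i m => b.repr ⟨u m, hu m⟩ i
  have h1 : ∀ m, u m = ∑ i, algebraMap k L (a i m) * (b i : L) := by
    intro m
    have h2 := b.sum_repr ⟨u m, hu m⟩
    have h3 := congrArg (fun x : V => (x : L)) h2
    simp only [Submodule.coe_sum, Submodule.coe_smul, Algebra.smul_def] at h3
    exact h3.symm
  have h4 : Om.mk u = ∑ i, mapOm k L (Om.mk (a i)) * cst L (b i : L) := by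
    have h5 : u = fun m => ∑ i, algebraMap k L (a i m) * (b i : L) := funext h1
    rw [h5, mk_sum Finset.univ (fun i m => algebraMap k L (a i m) * (b i : L))]
    refine Finset.sum_congr rfl fun i _ => ?_
    rw [mapOm_mk, cst_apply, Om.mk_mul]
  rw [h4]
  exact sum_mem fun i _ => mul_mem (mapOm_mem k L _) (cst_mem k L _)

end Pool.Agent.W61.RG.GSP
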